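import Pool.Agent.H998Z.SFP.Main

namespace Pool.Agent.Results.MP_3c35f6_pr.ADistLeSum

open Pool.Agent.H998Z.SFP MeasureTheory ProbabilityTheory

/-- Scale-free percolation on `ℤ^d` with `α > d`, `γ = α (τ - 1) / d < 2` and an explosive
edge-weight law: almost surely `d_L(x,y) ≤ V_x + V_y` for all vertices `x`, `y`. -/
theorem result {d : ℕ} (hd : 1 ≤ d) {α lam τ : ℝ} (hα : (d : ℝ) < α) (hlam : 0 < lam)
    (hτ : 1 < τ) (hγ : α * (τ - 1) / d < 2) {ℓ : ℝ → ℝ} (hℓ : SlowlyVarying ℓ)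
    (μW μL : Measure ℝ) [IsProbabilityMeasure μW] [IsProbabilityMeasure μL]
    (hW1 : μW (Set.Ici 1) = 1)
    (hW : ∀ t : ℝ, 1 ≤ t → μW.real (Set.Ioi t) = ℓ t * t ^ (-(τ - 1)))
    (hL1 : μL (Set.Ici 0) = 1)
    (hI : ∫⁻ y in Set.Ioi (0 : ℝ), ENNReal.ofReal (genInv μL (Real.exp (-Real.exp y))) < ⊤)
    {Ω : Type} [MeasurableSpace Ω] (P : Measure Ω) [IsProbabilityMeasure P]
    (W : (Fin d → ℤ) → Ω → ℝ) (E L : Sym2 (Fin d → ℤ) → Ω → ℝ)
    (lawW : ∀ x, HasLaw (W x) μW P)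
    (lawE : ∀ e, HasLaw (E e) (volume.restrict (Set.Icc (0 : ℝ) 1)) P)
    (lawL : ∀ e, HasLaw (L e) μL P)
    (hind : iIndepFun (β := fun _ => ℝ) (Sum.elim W (Sum.elim E L)) P) :
    ∀ᵐ ω ∂P, ∀ x y : Fin d → ℤ,
      wdist (sfp α lam (fun v => W v ω) (fun e => E e ω)) (fun e => L e ω) x y ≤
        explosion (sfp α lam (fun v => W v ω) (fun e => E e ω)) (fun e => L e ω) x +
        explosion (sfp α lam (fun v => W v ω) (fun e => E e ω)) (fun e => L e ω) y :=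
  main hd hα hlam hτ hγ hℓ μW μL hW1 hW hL1 hI P W E L lawW lawE lawL hind

end Pool.Agent.Results.MP_3c35f6_pr.ADistLeSum
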